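import Mathlib
import Pool.Agent.R325.LucasFib

/-!
# Odd `n`: which irreducible factors of the Lucas polynomial `L_n` are monogenic

For odd `n` the roots of `L_n` are the numbers `ζ - ζ⁻¹` with `ζ ^ n = 1`. If `θ = ζ - ζ⁻¹ ≠ 0`
then `ζ ∈ ℚ(θ)` because `ζ + ζ⁻¹ = L_{n+1}(θ)`; if `ζ` were in `ℤ[θ]`, say `ζ = h(θ)`, complex
conjugation would give `ζ⁻¹ = h(-θ)` and `θ = h(θ) - h(-θ) ∈ 2 θ ℤ[θ]`, so `1/2` would be integral.
-/

set_option autoImplicit false

namespace Pool.Agent.Results.MP_14f819_nt.OddLucas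

open Polynomial Pool.Agent.R325.LucasFib

theorem root_form (n : ℕ) (hn : Odd n) (θ : ℂ) (h : aeval θ (lucas n) = 0) :
    ∃ ζ : ℂ, ζ ^ n = 1 ∧ ζ - ζ⁻¹ = θ := by
  obtain ⟨z, hz, rfl⟩ := exists_z θ
  rw [lucas_eval z hz, hn.neg_pow, inv_pow] at h
  have hzn : z ^ n ≠ 0 := pow_ne_zero _ hz
  have h1 : (z ^ n - 1) * (z ^ n + 1) = 0 := by
    have : z ^ n * (z ^ n + -(z ^ n)⁻¹) = 0 := by rw [h, mul_zero]
    rw [mul_add, mul_neg, mul_inv_cancel₀ hzn] at this
    linear_combination this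
  rcases mul_eq_zero.mp h1 with h2 | h2
  · exact ⟨z, by linear_combination h2, rfl⟩
  · refine ⟨-z⁻¹, ?_, ?_⟩
    · rw [hn.neg_pow, inv_pow]
      have : z ^ n = -1 := by linear_combination h2
      rw [this]; norm_num
    · rw [inv_neg, inv_inv]; ring

theorem eq_X_of_root_zero (f : ℤ[X]) (hf : f.Monic) (hirr : Irreducible f)
    (h : aeval (0 : ℂ) f = 0) : f = X := by
  have h0 : f.coeff 0 = 0 := by
    have : aeval (0 : ℂ) f = algebraMap ℤ ℂ (f.coeff 0) := by
      rw [← coeff_zero_eq_aeval_zero']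
    rw [this] at h
    simpa using h
  have hX : X ∣ f := X_dvd_iff.mpr h0
  obtain ⟨g, hg⟩ := hX
  have hg1 : g.Monic := by
    rw [hg] at hf
    exact monic_X.of_mul_monic_left hf
  have hu : IsUnit g := by
    rcases hirr.isUnit_or_isUnit hg with h1 | h1
    · exact absurd h1 not_isUnit_X
    · exact h1
  rw [hg, hg1.eq_one_of_isUnit hu, mul_one]

/-- **Main theorem.** Let `n` be odd.
(1) A monic irreducible factor `f` of the Lucas polynomial `L_n` is monogenic if and only if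
`f = x`.
(2) Every monic irreducible factor of `L_n` is monogenic if and only if `n = 1`. -/
theorem result (n : ℕ) (hn : Odd n) :
    (∀ f : ℤ[X], f.Monic → Irreducible f → f ∣ lucas n → (Monogenic f ↔ f = X)) ∧
    ((∀ f : ℤ[X], f.Monic → Irreducible f → f ∣ lucas n → Monogenic f) ↔ n = 1) := by
  have hX : Monogenic X := by
    intro θ hθ
    rw [aeval_X] at hθ
    rw [hθ]
    exact full_zero
  have part1 : ∀ f : ℤ[X], f.Monic → Irreducible f → f ∣ lucas n → (Monogenic f ↔ f = X) := by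
    intro f hf hirr hdvd
    constructor
    · intro hmono
      have hdeg : f.degree ≠ 0 := by
        intro h
        have h1 : f = 1 := eq_one_of_monic_natDegree_zero hf
          (natDegree_eq_zero_iff_degree_le_zero.mpr h.le)
        exact hirr.not_isUnit (h1 ▸ isUnit_one)
      obtain ⟨θ, hθ⟩ := IsAlgClosed.exists_aeval_eq_zero ℂ f hdeg
      by_cases h0 : θ = 0
      · exact eq_X_of_root_zero f hf hirr (h0 ▸ hθ)
      · exfalso
        have hL : aeval θ (lucas n) = 0 := by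
          obtain ⟨g, hg⟩ := hdvd
          rw [hg, map_mul, hθ, zero_mul]
        obtain ⟨ζ, hζ, rfl⟩ := root_form n hn θ hL
        exact not_full n hn ζ hζ h0 (hmono _ hθ)
    · rintro rfl
      exact hX
  refine ⟨part1, ⟨fun hall => ?_, ?_⟩⟩
  · by_contra hn1
    have hn0 : n ≠ 0 := by rintro rfl; simp at hn
    have hn3 : 3 ≤ n := by
      rcases hn with ⟨k, rfl⟩; omega
    have hprim := Complex.isPrimitiveRoot_exp n hn0
    set ζ := Complex.exp (2 * Real.pi * Complex.I / n) with hζdef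
    have hζ : ζ ^ n = 1 := hprim.pow_eq_one
    have hζ0 : ζ ≠ 0 := hprim.ne_zero hn0
    have h0 : ζ - ζ⁻¹ ≠ 0 := by
      intro h
      have h2 : ζ ^ 2 = 1 := by
        have : ζ * (ζ - ζ⁻¹) = 0 := by rw [h, mul_zero]
        rw [mul_sub, mul_inv_cancel₀ hζ0] at this
        linear_combination this
      have := Nat.le_of_dvd (by norm_num) (hprim.dvd_of_pow_eq_one 2 h2)
      omega
    have hint : IsIntegral ℤ (ζ - ζ⁻¹) := by
      refine IsIntegral.sub ⟨X ^ n - 1, monic_X_pow_sub_C 1 hn0, by simp [hζ]⟩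
        ⟨X ^ n - 1, monic_X_pow_sub_C 1 hn0, by simp [hζ]⟩
    have hL : aeval (ζ - ζ⁻¹) (lucas n) = 0 := by
      rw [lucas_eval ζ hζ0, hn.neg_pow, inv_pow, hζ]; simp
    have h1 := hall (minpoly ℤ (ζ - ζ⁻¹)) (minpoly.monic hint) (minpoly.irreducible hint)
      (minpoly.isIntegrallyClosed_dvd hint hL)
    exact not_full n hn ζ hζ h0 (h1 _ (minpoly.aeval ℤ _))
  · rintro rfl f hf hirr hdvd
    refine (part1 f hf hirr hdvd).2 ?_
    obtain ⟨g, hg⟩ := hdvd
    rw [lucas] at hg
    rcases irreducible_X.isUnit_or_isUnit hg with h | h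
    · exact absurd h hirr.not_isUnit
    · have hg1 : g.Monic := by
        have hXm : (f * g).Monic := hg ▸ monic_X
        exact hf.of_mul_monic_left hXm
      rw [hg, hg1.eq_one_of_isUnit h, mul_one]

end Pool.Agent.Results.MP_14f819_nt.OddLucas
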